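import Pool.Agent.Q218.LE.Stm
import Pool.Agent.Q218.AT.Stat

/-!
Job LE-MEAS of project LE of helper218: the evolution depends measurably on the potential.
-/

set_option autoImplicit false

namespace Pool.Agent.Q237.LE

open MeasureTheory Filter Topology
open Pool.Agent.W788.LD.Spec (S)
open Pool.Agent.H4R2.LO (Zd)
open Pool.Agent.TH794.QD (Sol HS hmk hmk_apply hs_sum Hop Hop_apply evl evl_apply)
open Pool.Agent.Q218.UD
open Pool.Agent.Q218.AT (dl exp_sol)

variable {d : ℕ}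

/-- the powers of the generator, applied to the delta function -/
noncomputable def P (V : Zd d → ℝ) (a : Zd d) : ℕ → Zd d → ℂ
  | 0 => fun x => if x = a then 1 else 0
  | k + 1 => fun x => -Complex.I * (-S (P V a k) x + (V x : ℂ) * P V a k x)

theorem P_meas {Ω : Type} [MeasurableSpace Ω] (a : Zd d) (W : Ω → Zd d → ℝ)
    (hW : ∀ x, Measurable fun ω => W ω x) (k : ℕ) :
    ∀ x, Measurable fun ω => P (W ω) a k x := by
  induction k with
  | zero =>
    intro x
    exact measurable_const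
  | succ k ih =>
    intro x
    have h1 : Measurable fun ω => S (P (W ω) a k) x := by
      unfold S
      exact Finset.measurable_fun_sum _ fun i _ => (ih _).add (ih _)
    exact (measurable_const.mul (h1.neg.add ((Complex.measurable_ofReal.comp (hW x)).mul (ih x))))

theorem pow_apply (V : Zd d → ℝ) (B : ℝ) (hB : 0 ≤ B) (hV : ∀ x, |V x| ≤ B) (a : Zd d) (k : ℕ) :
    ∀ x, ((((-Complex.I) • Hop V B hB hV) ^ k : HS d →L[ℂ] HS d) (dl a)) x = P V a k x := by
  induction k with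
  | zero =>
    intro x
    rfl
  | succ k ih =>
    intro x
    rw [pow_succ', ContinuousLinearMap.mul_apply]
    obtain ⟨w, hw⟩ : ∃ w, w = (((-Complex.I) • Hop V B hB hV) ^ k : HS d →L[ℂ] HS d) (dl a) :=
      ⟨_, rfl⟩
    have hw2 : (fun y => w y) = P V a k := by
      funext y
      rw [hw]
      exact ih y
    rw [← hw, ← evl_apply x, ContinuousLinearMap.smul_apply, map_smul, smul_eq_mul, evl_apply,
      Hop_apply, hw2]
    have : w x = P V a k x := congrFun hw2 x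
    rw [this]
    rfl

theorem series (V : Zd d → ℝ) (B : ℝ) (hB : 0 ≤ B) (hV : ∀ x, |V x| ≤ B) (a : Zd d) (t : ℝ)
    (x : Zd d) : HasSum (fun k : ℕ => ((k.factorial : ℂ)⁻¹ * (t : ℂ) ^ k) * P V a k x)
      (NormedSpace.exp ((t : ℂ) • ((-Complex.I) • Hop V B hB hV)) (dl a) x) := by
  obtain ⟨A, hA⟩ : ∃ A : HS d →L[ℂ] HS d, A = (-Complex.I) • Hop V B hB hV := ⟨_, rfl⟩
  have h1 := NormedSpace.exp_series_hasSum_exp' (𝕂 := ℂ) ((t : ℂ) • A)
  have h2 := h1.mapL ((evl x).comp (ContinuousLinearMap.apply ℂ (HS d) (dl a)))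
  rw [← hA]
  have h3 : (fun k : ℕ => ((evl x).comp (ContinuousLinearMap.apply ℂ (HS d) (dl a)))
      ((k.factorial : ℂ)⁻¹ • ((t : ℂ) • A) ^ k)) =
      fun k : ℕ => ((k.factorial : ℂ)⁻¹ * (t : ℂ) ^ k) * P V a k x := by
    funext k
    have e1 : ((evl x).comp (ContinuousLinearMap.apply ℂ (HS d) (dl a)))
      ((k.factorial : ℂ)⁻¹ • ((t : ℂ) • A) ^ k) =
      ((k.factorial : ℂ)⁻¹ * (t : ℂ) ^ k) * ((A ^ k) (dl a)) x := by
      rw [smul_pow, smul_smul, map_smul, smul_eq_mul]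
      rfl
    rw [e1, hA, pow_apply]
  rw [h3] at h2
  exact h2

/-- **Job LE-MEAS.** -/
theorem t_MEAS : Pool.Agent.Q218.LE.S_MEAS := by
  intro d hd Ω _ a W ψ hW hψ t x
  choose B hB using fun (ω : Ω) (n : ℕ) => cutV_bd (W ω) a n
  have hB0 : ∀ ω n, 0 ≤ B ω n := fun ω n => (abs_nonneg _).trans (hB ω n 0)
  obtain ⟨Ψ, hΨ⟩ : ∃ Ψ : ℕ → Ω → ℂ, Ψ = fun n ω =>
    NormedSpace.exp ((t : ℂ) • ((-Complex.I) • Hop (cutV (W ω) a n) (B ω n) (hB0 ω n) (hB ω n)))
      (dl a) x := ⟨_, rfl⟩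
  have hcut : ∀ n y, Measurable fun ω => cutV (W ω) a n y := by
    intro n y
    unfold cutV
    split_ifs
    · exact hW y
    · exact measurable_const
  have hm : ∀ n, Measurable (Ψ n) := by
    intro n
    refine measurable_of_tendsto_metrizable (f := fun (m : ℕ) (ω : Ω) => ∑ k ∈ Finset.range m,
      ((k.factorial : ℂ)⁻¹ * (t : ℂ) ^ k) * P (cutV (W ω) a n) a k x) (fun m => ?_) ?_
    · exact Finset.measurable_fun_sum _ fun k _ =>
        measurable_const.mul (P_meas a (fun ω => cutV (W ω) a n) (hcut n) k x)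
    · rw [tendsto_pi_nhds]
      intro ω
      rw [hΨ]
      exact (series (cutV (W ω) a n) (B ω n) (hB0 ω n) (hB ω n) a t x).tendsto_sum_nat
  refine measurable_of_tendsto_metrizable hm ?_
  rw [tendsto_pi_nhds]
  intro ω
  obtain ⟨K, hK⟩ : ∃ K : ℕ, ‖x - a‖ ≤ K := exists_nat_ge _
  rw [← tendsto_add_atTop_iff_nat K, tendsto_iff_norm_sub_tendsto_zero]
  refine squeeze_zero (fun n => norm_nonneg _) (fun n => ?_) (fac_lim (2 * d * |t|))
  rw [hΨ]
  refine dif' (exp_sol (cutV (W ω) a (n + K)) (B ω (n + K)) (hB0 ω _) (hB ω _) a) (hψ ω)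
    ((n + K : ℕ) : ℝ) (fun z hz => cutV_eq (W ω) a hz) n x ?_ t
  push_cast
  linarith

end Pool.Agent.Q237.LE
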